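import Pool.Agent.H666.TK.SpecC

set_option autoImplicit false

open Finset
open scoped Classical

namespace Pool.Agent.H297.TK

open Pool.Agent.H666.TK

noncomputable section

/-- The number of ordered cliques with given vertex set. -/
theorem card_fibre {V : Type} [Fintype V] [DecidableEq V] (H : Finset (Finset V)) (K : ℕ)
    (L : Finset V) (hL : L ∈ Cs H K) :
    ((Seq H K).filter fun v => univ.image v = L).card = K.factorial := by
  have hL' := hL
  unfold Cs at hL'
  rw [mem_filter, mem_powersetCard] at hL'
  obtain ⟨⟨_, hcard⟩, hcl⟩ := hL'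
  have h1 : Fintype.card (Fin K ↪ {x // x ∈ L}) = K.factorial := by
    rw [Fintype.card_embedding_eq, Fintype.card_coe, hcard, Fintype.card_fin,
      Nat.descFactorial_self]
  rw [← h1, ← Finset.card_univ]
  symm
  refine Finset.card_bij (fun f _ => fun i => (f i).1) ?_ ?_ ?_
  · intro f _
    have hinj : Function.Injective (fun i => (f i).1) := fun i j hij =>
      f.injective (Subtype.ext hij)
    have himg : univ.image (fun i => (f i).1) = L := by
      apply Finset.eq_of_subset_of_card_le
      · intro x hx
        rw [mem_image] at hx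
        obtain ⟨i, _, rfl⟩ := hx
        exact (f i).2
      · rw [Finset.card_image_of_injective _ hinj, Finset.card_univ, Fintype.card_fin, hcard]
    rw [mem_filter]
    refine ⟨?_, himg⟩
    unfold H666.TK.Seq
    rw [mem_filter]
    refine ⟨mem_univ _, hinj, ?_⟩
    rw [himg]
    exact hcl
  · intro f _ g _ hfg
    ext i
    exact congrFun hfg i
  · intro v hv
    rw [mem_filter] at hv
    obtain ⟨hv1, hv2⟩ := hv
    unfold H666.TK.Seq at hv1
    rw [mem_filter] at hv1
    have hmem : ∀ i, v i ∈ L := by
      intro i
      rw [← hv2]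
      exact mem_image_of_mem _ (mem_univ i)
    refine ⟨⟨fun i => ⟨v i, hmem i⟩, ?_⟩, mem_univ _, ?_⟩
    · intro i j hij
      exact hv1.2.1 (congrArg Subtype.val hij)
    · funext i
      rfl

theorem avg : Pool.Agent.H666.TK.S_avg := by
  intro V _ _ H K Φ
  have hmaps : ∀ v ∈ Seq H K, univ.image v ∈ Cs H K := by
    intro v hv
    unfold H666.TK.Seq at hv
    rw [mem_filter] at hv
    unfold Cs
    rw [mem_filter, mem_powersetCard]
    refine ⟨⟨subset_univ _, ?_⟩, hv.2.2⟩
    rw [Finset.card_image_of_injective _ hv.2.1, Finset.card_univ, Fintype.card_fin]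
  rw [← Finset.sum_fiberwise_of_maps_to hmaps, Finset.mul_sum]
  refine Finset.sum_congr rfl fun L hL => ?_
  have h2 : ∑ v ∈ (Seq H K).filter (fun v => univ.image v = L), Φ (univ.image v) =
      ∑ v ∈ (Seq H K).filter (fun v => univ.image v = L), Φ L := by
    refine Finset.sum_congr rfl fun v hv => ?_
    rw [mem_filter] at hv
    rw [hv.2]
  rw [h2, Finset.sum_const, nsmul_eq_mul, card_fibre H K L hL]

end

end Pool.Agent.H297.TK
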